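import Pool.Agent.K7.H32.LV.Stm

set_option autoImplicit false

/-! Project LV, job CMP: comparison of `cjones` with `JR`. -/

namespace Pool.Agent.K7.H97.LVCMP

open Finset Matrix Pool.Agent.H550R3.Jones Pool.Agent.K7.H32.LV

theorem bR_eq {v : ℂ} (hv : v ≠ 0) (n : ℤ) : bR (Units.mk0 v hv) n = br v n := by
  unfold bR br
  rw [Units.val_zpow_eq_zpow_val, Units.val_zpow_eq_zpow_val, Units.val_mk0]

theorem qb_zero_of_lt {v : ℂ} (hv : v ≠ 0) : ∀ n k : ℕ, n < k → qb (Units.mk0 v hv) n k = 0 := by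
  intro n
  induction n with
  | zero =>
    intro k hk
    obtain ⟨k, rfl⟩ := Nat.exists_eq_succ_of_ne_zero (show k ≠ 0 by omega)
    rfl
  | succ n ih =>
    intro k hk
    obtain ⟨k, rfl⟩ := Nat.exists_eq_succ_of_ne_zero (show k ≠ 0 by omega)
    show _ * qb (Units.mk0 v hv) n (k + 1) + _ * qb (Units.mk0 v hv) n k = 0
    rw [ih (k + 1) (by omega), ih k (by omega)]
    simp

theorem brf_succ (v : ℂ) (n : ℕ) : brf v (n + 1) = brf v n * br v ((n : ℤ) + 1) := by
  unfold brf
  rw [prod_range_succ]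

theorem pascal {v : ℂ} (hv : v ≠ 0) (n k : ℤ) :
    v ^ (k + 1) * br v (n - k) + v ^ (k - n) * br v (k + 1) = br v (n + 1) := by
  unfold br
  rw [mul_sub, mul_sub, ← zpow_add₀ hv, ← zpow_add₀ hv, ← zpow_add₀ hv, ← zpow_add₀ hv,
    show k + 1 + (n - k) = n + 1 by ring, show k + 1 + -(n - k) = 2 * k + 1 - n by ring,
    show k - n + (k + 1) = 2 * k + 1 - n by ring, show k - n + -(k + 1) = -(n + 1) by ring]
  ring

theorem qb_mul {v : ℂ} (hv : v ≠ 0) : ∀ n k : ℕ, k ≤ n →
    qb (Units.mk0 v hv) n k * (brf v k * brf v (n - k)) = brf v n := by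
  intro n
  induction n with
  | zero =>
    intro k hk
    obtain rfl : k = 0 := by omega
    show (1 : ℂ) * _ = _
    simp [brf]
  | succ n ih =>
    intro k hk
    rcases Nat.eq_zero_or_pos k with rfl | hk0
    · show (1 : ℂ) * _ = _
      simp [brf]
    · obtain ⟨k, rfl⟩ := Nat.exists_eq_succ_of_ne_zero (show k ≠ 0 by omega)
      show ((((Units.mk0 v hv) ^ ((k : ℤ) + 1) : ℂˣ) : ℂ) * qb (Units.mk0 v hv) n (k + 1) +
        (((Units.mk0 v hv) ^ ((k : ℤ) - n) : ℂˣ) : ℂ) * qb (Units.mk0 v hv) n k) *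
          (brf v (k + 1) * brf v (n + 1 - (k + 1))) = _
      rw [Units.val_zpow_eq_zpow_val, Units.val_zpow_eq_zpow_val, Units.val_mk0,
        show n + 1 - (k + 1) = n - k by omega]
      have h1 : qb (Units.mk0 v hv) n (k + 1) * (brf v (k + 1) * brf v (n - k)) =
          br v ((n : ℤ) - k) * brf v n := by
        rcases Nat.lt_or_ge k n with h | h
        · have h2 := ih (k + 1) (by omega)
          have h3 : n - k = n - (k + 1) + 1 := by omega
          have h4 : ((n - (k + 1) : ℕ) : ℤ) + 1 = (n : ℤ) - k := by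
            rw [Nat.cast_sub (by omega)]; push_cast; ring
          rw [h3, brf_succ v (n - (k + 1)), h4, ← h2]
          ring
        · obtain rfl : n = k := by omega
          rw [qb_zero_of_lt hv n (n + 1) (by omega), sub_self]
          simp [br]
      have h2 : qb (Units.mk0 v hv) n k * (brf v (k + 1) * brf v (n - k)) =
          br v ((k : ℤ) + 1) * brf v n := by
        rw [brf_succ v k, ← ih k (by omega)]
        ring
      rw [brf_succ v n, ← pascal hv (n : ℤ) (k : ℤ)]
      calc _ = v ^ ((k : ℤ) + 1) * (qb (Units.mk0 v hv) n (k + 1) * (brf v (k + 1) *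
              brf v (n - k))) + v ^ ((k : ℤ) - n) * (qb (Units.mk0 v hv) n k *
              (brf v (k + 1) * brf v (n - k))) := by ring
        _ = _ := by rw [h1, h2]; ring

theorem brf_ne {N : ℕ} {v : ℂ} (hv : Adm N v) {k : ℕ} (hk : k < N) : brf v k ≠ 0 := by
  unfold brf
  rw [prod_ne_zero_iff]
  intro j hj
  have h := hv.2 (j + 1) (by omega) (by rw [mem_range] at hj; omega)
  push_cast at h
  exact h

theorem qb_eq {N : ℕ} {v : ℂ} (hv : Adm N v) {n k : ℕ} (hk : k ≤ n) (hn : n < N) :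
    qb (Units.mk0 v hv.1) n k = brf v n / (brf v k * brf v (n - k)) := by
  rw [eq_div_iff (mul_ne_zero (brf_ne hv (by omega)) (brf_ne hv (by omega)))]
  exact qb_mul hv.1 n k hk

theorem cP_eq {N : ℕ} {v : ℂ} (hv : Adm N v) : cP N (Units.mk0 v hv.1) = crossP N v := by
  funext p q
  unfold cP crossP
  split_ifs with h
  · rw [qb_eq hv h.2 p.1.2, Units.val_zpow_eq_zpow_val, Units.val_pow_eq_pow_val, Units.val_mk0]
    congr 1
    refine prod_congr rfl fun t _ => ?_
    rw [bR_eq]
  · rfl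

theorem cN_eq {N : ℕ} {v : ℂ} (hv : Adm N v) : cN N (Units.mk0 v hv.1) = crossN N v := by
  funext p q
  unfold cN crossN
  split_ifs with h
  · rw [qb_eq hv h.2 p.2.2, Units.val_zpow_eq_zpow_val, Units.val_inv_eq_inv_val,
      Units.val_pow_eq_pow_val, Units.val_mk0, div_eq_mul_inv ((-1 : ℂ) ^ _ * _)]
    congr 1
    refine prod_congr rfl fun t _ => ?_
    rw [bR_eq]
  · rfl

theorem t : S_CMP := by
  intro N n w v hv
  unfold cjones JR
  split_ifs with h
  · rw [cP_eq hv, cN_eq hv]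
    unfold Pool.Agent.H550R3.Jones.tail tailR
    refine sum_congr rfl fun s _ => ?_
    congr 1
    refine prod_congr rfl fun x _ => ?_
    exact (Units.val_zpow_eq_zpow_val (Units.mk0 v hv.1) _).symm
  · rfl

end Pool.Agent.K7.H97.LVCMP
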