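import Pool.Agent.K7.H32.LV.Stm

set_option autoImplicit false

/-! Project LV, job SUM: the trivial bound of the state sum. -/

namespace Pool.Agent.K7.H97.LVSUM

open Finset Matrix Pool.Agent.H550R3.Jones Pool.Agent.K7.H32.LV

theorem gen_row {N : ℕ} (A : Matrix (Fin N × Fin N) (Fin N × Fin N) ℂ) {E : ℝ} (hN : 1 ≤ N)
    (hE : 1 ≤ E) (hA : ∀ p q, ‖A p q‖ ≤ E)
    (hs : ∀ p q, A p q ≠ 0 → (p.1 : ℕ) + p.2 = q.1 + q.2) (n k : ℕ) (s : Fin n → Fin N) :
    ∑ u : Fin n → Fin N, ‖gen A n k s u‖ ≤ N * E := by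
  classical
  have hN' : (1 : ℝ) ≤ N := by exact_mod_cast hN
  by_cases h : k + 1 < n
  · have h1 : ∑ u : Fin n → Fin N, ‖gen A n k s u‖ =
        ∑ u ∈ univ.filter (fun u : Fin n → Fin N => gen A n k s u ≠ 0), ‖gen A n k s u‖ := by
      symm
      apply sum_filter_of_ne
      intro u _ hu h0
      exact hu (by rw [h0, norm_zero])
    rw [h1]
    have h2 : ∀ u ∈ univ.filter (fun u : Fin n → Fin N => gen A n k s u ≠ 0),
        ‖gen A n k s u‖ ≤ E := by
      intro u _
      unfold gen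
      rw [dif_pos h]
      split_ifs
      · exact hA _ _
      · rw [norm_zero]; linarith
    refine (sum_le_card_nsmul _ _ _ h2).trans ?_
    rw [nsmul_eq_mul]
    refine mul_le_mul_of_nonneg_right ?_ (by linarith)
    have hkey : ∀ u : Fin n → Fin N, gen A n k s u ≠ 0 →
        (∀ j : Fin n, (j : ℕ) ≠ k → (j : ℕ) ≠ k + 1 → s j = u j) ∧
        (s ⟨k, by omega⟩ : ℕ) + s ⟨k + 1, h⟩ = u ⟨k, by omega⟩ + u ⟨k + 1, h⟩ := by
      intro u hu
      unfold gen at hu
      rw [dif_pos h] at hu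
      split_ifs at hu with h3
      · exact ⟨h3, hs _ _ hu⟩
      · exact absurd rfl hu
    have h3 : (univ.filter (fun u : Fin n → Fin N => gen A n k s u ≠ 0)).card ≤
        (univ : Finset (Fin N)).card := by
      apply card_le_card_of_injOn (fun u => u ⟨k, by omega⟩) (fun _ _ => mem_coe.2 (mem_univ _))
      intro u hu u' hu' he
      obtain ⟨a1, a2⟩ := hkey u (mem_filter.1 (mem_coe.1 hu)).2
      obtain ⟨b1, b2⟩ := hkey u' (mem_filter.1 (mem_coe.1 hu')).2
      have he' : u ⟨k, by omega⟩ = u' ⟨k, by omega⟩ := he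
      funext j
      by_cases hj : (j : ℕ) = k
      · have : j = ⟨k, by omega⟩ := Fin.ext hj
        rw [this]
        exact he'
      · by_cases hj1 : (j : ℕ) = k + 1
        · have : j = ⟨k + 1, h⟩ := Fin.ext hj1
          rw [this]
          apply Fin.ext
          rw [he'] at a2
          omega
        · rw [← a1 j hj hj1, b1 j hj hj1]
    rw [card_univ, Fintype.card_fin] at h3
    exact_mod_cast h3
  · have h1 : ∀ u : Fin n → Fin N, ‖gen A n k s u‖ = if s = u then 1 else 0 := by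
      intro u
      unfold gen
      rw [dif_neg h]
      split_ifs <;> simp
    rw [sum_congr rfl fun u _ => h1 u, sum_ite_eq, if_pos (mem_univ _)]
    nlinarith

theorem rep_entry {N : ℕ} (P Q : Matrix (Fin N × Fin N) (Fin N × Fin N) ℂ) {E : ℝ} (hN : 1 ≤ N)
    (hE : 1 ≤ E) (hP : ∀ p q, ‖P p q‖ ≤ E) (hQ : ∀ p q, ‖Q p q‖ ≤ E)
    (hPs : ∀ p q, P p q ≠ 0 → (p.1 : ℕ) + p.2 = q.1 + q.2)
    (hQs : ∀ p q, Q p q ≠ 0 → (p.1 : ℕ) + p.2 = q.1 + q.2) (n : ℕ) (w : List (ℕ × Bool)) :
    ∀ s t : Fin n → Fin N, ‖rep P Q n w s t‖ ≤ (N * E) ^ w.length := by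
  induction w with
  | nil =>
    intro s t
    show ‖(1 : Matrix (Fin n → Fin N) (Fin n → Fin N) ℂ) s t‖ ≤ _
    rw [Matrix.one_apply, List.length_nil, pow_zero]
    split_ifs <;> simp
  | cons g w ih =>
    intro s t
    have h1 : rep P Q n (g :: w) = gen (if g.2 then P else Q) n g.1 * rep P Q n w := by
      unfold rep
      rw [List.map_cons, List.prod_cons]
    rw [h1, Matrix.mul_apply, List.length_cons, pow_succ']
    have hrow : ∑ u : Fin n → Fin N, ‖gen (if g.2 then P else Q) n g.1 s u‖ ≤ N * E := by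
      apply gen_row _ hN hE
      · intro p q
        split_ifs
        · exact hP p q
        · exact hQ p q
      · intro p q
        split_ifs
        · exact hPs p q
        · exact hQs p q
    calc ‖∑ u, gen (if g.2 then P else Q) n g.1 s u * rep P Q n w u t‖
        ≤ ∑ u, ‖gen (if g.2 then P else Q) n g.1 s u * rep P Q n w u t‖ := norm_sum_le _ _
      _ ≤ ∑ u, ‖gen (if g.2 then P else Q) n g.1 s u‖ * (N * E) ^ w.length := by
          refine sum_le_sum fun u _ => ?_
          rw [norm_mul]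
          exact mul_le_mul_of_nonneg_left (ih u t) (norm_nonneg _)
      _ = (∑ u, ‖gen (if g.2 then P else Q) n g.1 s u‖) * (N * E) ^ w.length := by
          rw [sum_mul]
      _ ≤ _ := mul_le_mul_of_nonneg_right hrow (by positivity)

theorem crossP_sum {N : ℕ} {v : ℂ} (p q : Fin N × Fin N) (h : crossP N v p q ≠ 0) :
    (p.1 : ℕ) + p.2 = q.1 + q.2 := by
  unfold crossP at h
  split_ifs at h with h1
  · exact h1.1
  · exact absurd rfl h

theorem crossN_sum {N : ℕ} {v : ℂ} (p q : Fin N × Fin N) (h : crossN N v p q ≠ 0) :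
    (p.1 : ℕ) + p.2 = q.1 + q.2 := by
  unfold crossN at h
  split_ifs at h with h1
  · exact h1.1
  · exact absurd rfl h

theorem t : S_SUM := by
  intro N n w z E hN hz hE h
  unfold cjones
  rw [dif_pos (show 0 < N by omega)]
  unfold Pool.Agent.H550R3.Jones.tail
  refine (norm_sum_le _ _).trans ?_
  have h1 : ∀ s ∈ (univ : Finset (Fin n → Fin N)),
      ‖(∏ x, z ^ ((N : ℤ) - 1 - 2 * ((s x : Fin N) : ℕ))) *
        rep (crossP N z) (crossN N z) (n + 1) w (Fin.cons ⟨0, by omega⟩ s)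
          (Fin.cons ⟨0, by omega⟩ s)‖ ≤ (N * E) ^ w.length := by
    intro s _
    rw [norm_mul, norm_prod, prod_congr rfl (fun x _ => by rw [norm_zpow, hz, _root_.one_zpow]),
      prod_const_one, one_mul]
    exact rep_entry _ _ hN hE (fun p q => (h p q).1) (fun p q => (h p q).2)
      (fun p q => crossP_sum p q) (fun p q => crossN_sum p q) _ w _ _
  refine (sum_le_card_nsmul _ _ _ h1).trans ?_
  rw [nsmul_eq_mul, card_univ, Fintype.card_fun, Fintype.card_fin, Fintype.card_fin]
  push_cast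
  exact le_refl _

end Pool.Agent.K7.H97.LVSUM
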