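import Pool.Agent.K7.H84.GG.Stm

/-!
# Job S5 of the project GG (MP_dc96bc_co)
-/

set_option autoImplicit false

namespace Pool.Agent.K7.H97.GGS5

open Finset DC813 Pool.Agent.K7.H84.GG

variable {α : Type} [DecidableEq α]

theorem mem_fl {r : Finset α → ℕ} {E F : Finset α} :
    F ∈ fl r E ↔ F ⊆ E ∧ ∀ e ∈ E, e ∉ F → r F < r (insert e F) := by
  unfold fl
  rw [Finset.mem_filter, Finset.mem_powerset]

theorem mem_hy {r : Finset α → ℕ} {E F : Finset α} {p : α} :
    F ∈ hy r E p ↔ F ∈ fl r E ∧ r F + 1 = r E ∧ p ∉ F := by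
  unfold hy
  rw [Finset.mem_filter]

/-- if `e` is in the closure of `A ⊆ B`, then in that of `B` -/
theorem clos {r : Finset α → ℕ} (hr : IsRk r) {A B : Finset α} (h : A ⊆ B) {e : α}
    (he : r (insert e A) = r A) : r (insert e B) = r B := by
  have h1 := hr.submod B (insert e A)
  have h2 : B ∪ insert e A = insert e B := by
    ext y; simp only [Finset.mem_union, Finset.mem_insert]
    constructor
    · rintro (h' | h' | h')
      · exact Or.inr h'
      · exact Or.inl h'
      · exact Or.inr (h h')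
    · rintro (h' | h')
      · exact Or.inr (Or.inl h')
      · exact Or.inl h'
  have h3 : r A ≤ r (B ∩ insert e A) := hr.mono _ _ (by
    intro y hy
    rw [Finset.mem_inter, Finset.mem_insert]
    exact ⟨h hy, Or.inr hy⟩)
  have h4 := hr.mono B (insert e B) (Finset.subset_insert _ _)
  rw [h2] at h1
  omega

/-- an element outside the flat `H` is outside the closure of `A ⊆ H` -/
theorem out {r : Finset α → ℕ} (hr : IsRk r) {E H A : Finset α} (hH : H ∈ fl r E) (hA : A ⊆ H)
    {e : α} (he : e ∈ E) (heH : e ∉ H) : r (insert e A) = r A + 1 := by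
  have h1 := (mem_fl.1 hH).2 e he heH
  have h2 := hr.insert_le A e
  have h3 := hr.mono A (insert e A) (Finset.subset_insert _ _)
  by_contra hne
  have h4 : r (insert e A) = r A := by omega
  have h5 := clos hr hA h4
  omega

theorem mu_congr {r r' : Finset α → ℕ} {E : Finset α} (h : ∀ A ⊆ E, r A = r' A) :
    mu r E = mu r' E := by
  unfold mu
  rw [h E subset_rfl]
  congr 1
  refine Finset.sum_congr ?_ (fun _ _ => rfl)
  refine Finset.filter_congr ?_
  intro X hX
  rw [h X (Finset.mem_powerset.1 hX)]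

section

variable {r : Finset α → ℕ} {E L H : Finset α} {p : α}

/-- data of the situation -/
theorem insH (C : Ctx r E L p) (hH : H ∈ hy r E p) : insert p H ⊆ E :=
  Finset.insert_subset C.hp (mem_fl.1 (mem_hy.1 hH).1).1

/-- `tr r L = r` on the subsets of `H` -/
theorem tr_H (C : Ctx r E L p) (hH : H ∈ hy r E p) {A : Finset α} (hA : A ⊆ H) :
    tr r L A = r A := by
  have h1 := out C.hr (mem_hy.1 hH).1 hA C.hp (mem_hy.1 hH).2.2
  have h2 : r (insert p A) ≤ r (A ∪ L) := C.hr.mono _ _ (by
    intro y hy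
    rcases Finset.mem_insert.1 hy with h | h
    · rw [h]; exact Finset.mem_union_right _ C.hpL
    · exact Finset.mem_union_left _ h)
  unfold tr
  rw [if_neg (by omega)]
  omega

theorem un_L {A : Finset α} (C : Ctx r E L p) : insert p A ∪ L = A ∪ L := by
  have := C.hpL
  ext y
  simp only [Finset.mem_union, Finset.mem_insert]
  constructor
  · rintro ((rfl | h) | h)
    · exact Or.inr this
    · exact Or.inl h
    · exact Or.inr h
  · rintro (h | h)
    · exact Or.inl (Or.inr h)
    · exact Or.inr h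

/-- `tr r L` on sets `insert p A`, `A ⊆ H` -/
theorem tr_p (C : Ctx r E L p) (hH : H ∈ hy r E p) {A : Finset α} (hA : A ⊆ H) :
    tr r L (insert p A) = if r (A ∪ L) = r A + 1 then r A else r A + 1 := by
  have h1 := out C.hr (mem_hy.1 hH).1 hA C.hp (mem_hy.1 hH).2.2
  unfold tr
  rw [un_L C, h1]
  split_ifs <;> omega

theorem r_ins (C : Ctx r E L p) (hH : H ∈ hy r E p) : r (insert p H) = r E := by
  have h1 := out C.hr (mem_hy.1 hH).1 (subset_refl H) C.hp (mem_hy.1 hH).2.2
  have h2 := (mem_hy.1 hH).2.1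
  omega

theorem hL_E (C : Ctx r E L p) : L ⊆ E := (mem_fl.1 C.hL).1

theorem tr_ins (C : Ctx r E L p) (hH : H ∈ hy r E p) : tr r L (insert p H) + 1 = r E := by
  have h2 := (mem_hy.1 hH).2.1
  have h3 : r (H ∪ L) = r E := by
    apply le_antisymm
    · exact C.hr.mono _ _ (Finset.union_subset (mem_fl.1 (mem_hy.1 hH).1).1 (hL_E C))
    · rw [← r_ins C hH, ← un_L C]
      exact C.hr.mono _ _ Finset.subset_union_left
  rw [tr_p C hH (subset_refl H), if_pos (by omega)]
  exact h2

theorem rank_one (hr : IsRk r) (x : α) : r {x} ≤ 1 := by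
  have h := hr.insert_le ∅ x
  rw [hr.empty] at h
  exact h

/-- type I flats inside `H` -/
theorem hy_tr (C : Ctx r E L p) (hH : H ∈ hy r E p) :
    hy (tr r L) (insert p H) p = (T1 r E L).filter (fun G => G ⊆ H) := by
  have hr := C.hr
  have hHf := (mem_hy.1 hH).1
  have hpH := (mem_hy.1 hH).2.2
  have hHr := (mem_hy.1 hH).2.1
  have hHE : H ⊆ E := (mem_fl.1 hHf).1
  ext G
  rw [mem_hy, Finset.mem_filter, mem_fl]
  unfold T1
  rw [Finset.mem_filter]
  constructor
  · rintro ⟨⟨h1, h2⟩, h3, h4⟩
    have hGH : G ⊆ H := by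
      intro y hy
      rcases Finset.mem_insert.1 (h1 hy) with h | h
      · rw [h] at hy; exact absurd hy h4
      · exact h
    rw [tr_H C hH hGH] at h3
    have h5 := tr_ins C hH
    have h6 : r G + 2 = r E := by omega
    refine ⟨⟨mem_fl.2 ⟨hGH.trans hHE, ?_⟩, h6, ?_⟩, hGH⟩
    · intro e he heG
      by_cases heH : e ∈ H
      · have h7 := h2 e (Finset.mem_insert_of_mem heH) heG
        rwa [tr_H C hH hGH, tr_H C hH (Finset.insert_subset heH hGH)] at h7
      · have := out hr hHf hGH he heH
        omega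
    · have h7 := h2 p (Finset.mem_insert_self p H) h4
      rw [tr_H C hH hGH, tr_p C hH hGH] at h7
      have h8 : r (G ∪ L) ≠ r G + 1 := by
        intro h
        rw [if_pos h] at h7
        exact lt_irrefl _ h7
      have h9 := out hr hHf hGH C.hp hpH
      have h10 : r (insert p G) ≤ r (G ∪ L) := by
        rw [← un_L C]
        exact hr.mono _ _ Finset.subset_union_left
      have h11 : r (G ∪ L) ≤ r E := hr.mono _ _ (Finset.union_subset (hGH.trans hHE) (hL_E C))
      omega
  · rintro ⟨⟨h1, h2, h3⟩, hGH⟩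
    have h4 : p ∉ G := fun h => hpH (hGH h)
    have h5 := tr_ins C hH
    refine ⟨⟨hGH.trans (Finset.subset_insert _ _), ?_⟩, ?_, h4⟩
    · intro e he heG
      rcases Finset.mem_insert.1 he with h | heH
      · subst h
        rw [tr_H C hH hGH, tr_p C hH hGH, if_neg (by omega)]
        omega
      · rw [tr_H C hH hGH, tr_H C hH (Finset.insert_subset heH hGH)]
        exact (mem_fl.1 h1).2 e (hHE heH) heG
    · rw [tr_H C hH hGH]
      omega

/-- flats of the truncation that contain `p` -/
theorem fl_of_XX (C : Ctx r E L p) (hH : H ∈ hy r E p) {X : Finset α} (hX : X ∈ XX r E L)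
    (hXH : X ⊆ H) : insert p X ∈ fl (tr r L) (insert p H) := by
  have hr := C.hr
  have hHf := (mem_hy.1 hH).1
  have hpH := (mem_hy.1 hH).2.2
  have hHE : H ⊆ E := (mem_fl.1 hHf).1
  unfold XX at hX
  rw [Finset.mem_filter] at hX
  obtain ⟨hXf, hXn, hXd, hXr⟩ := hX
  rw [mem_fl]
  refine ⟨Finset.insert_subset_insert _ hXH, ?_⟩
  intro e he heX
  have hep : e ≠ p := fun h => heX (by rw [h]; exact Finset.mem_insert_self _ _)
  have heH : e ∈ H := by
    rcases Finset.mem_insert.1 he with h | h
    · exact absurd h hep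
    · exact h
  have heX' : e ∉ X := fun h => heX (Finset.mem_insert_of_mem h)
  have h1 := (mem_fl.1 hXf).2 e (hHE heH) heX'
  rw [Finset.insert_comm, tr_p C hH hXH, if_pos hXr,
    tr_p C hH (Finset.insert_subset heH hXH)]
  split_ifs <;> omega

theorem XX_of_fl (C : Ctx r E L p) (hH : H ∈ hy r E p) (hd : Disjoint H L) {X : Finset α}
    (hXH : X ⊆ H) (hne : X.Nonempty) (hF : insert p X ∈ fl (tr r L) (insert p H))
    (hc : ¬ tr r L X < tr r L (insert p X)) : X ∈ XX r E L := by
  have hr := C.hr
  have hHf := (mem_hy.1 hH).1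
  have hpH := (mem_hy.1 hH).2.2
  have hHE : H ⊆ E := (mem_fl.1 hHf).1
  rw [tr_H C hH hXH, tr_p C hH hXH] at hc
  have h0 : r (X ∪ L) = r X + 1 := by
    by_contra h
    rw [if_neg h] at hc
    omega
  unfold XX
  rw [Finset.mem_filter]
  refine ⟨mem_fl.2 ⟨hXH.trans hHE, ?_⟩, hne, ?_, h0⟩
  · intro e he heX
    by_cases heH : e ∈ H
    · have h1 := (mem_fl.1 hF).2 e (Finset.mem_insert_of_mem heH) (by
        intro h
        rcases Finset.mem_insert.1 h with h | h
        · rw [h] at heH; exact hpH heH
        · exact heX h)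
      rw [Finset.insert_comm, tr_p C hH hXH, if_pos h0,
        tr_p C hH (Finset.insert_subset heH hXH)] at h1
      by_contra hcon
      have h2 := hr.mono X (insert e X) (Finset.subset_insert _ _)
      have h3 : r (insert e X) = r X := by omega
      have h4 : r (insert e X ∪ L) = r X + 1 := by
        have := clos hr (Finset.subset_union_left : X ⊆ X ∪ L) h3
        rw [Finset.insert_union, this, h0]
      rw [h3, if_pos h4] at h1
      exact lt_irrefl _ h1
    · have := out hr hHf hXH he heH
      omega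
  · exact Finset.disjoint_of_subset_left hXH hd

theorem mc_X (C : Ctx r E L p) (hH : H ∈ hy r E p) {X : Finset α} (hX : X ∈ XX r E L)
    (hXH : X ⊆ H) : mc (tr r L) (insert p H) (insert p X) = mc r H X := by
  have hr := C.hr
  have hHf := (mem_hy.1 hH).1
  have hpH := (mem_hy.1 hH).2.2
  unfold XX at hX
  rw [Finset.mem_filter] at hX
  obtain ⟨hXf, hXn, hXd, hXr⟩ := hX
  unfold mc
  have h1 : insert p H \ insert p X = H \ X := by
    ext y
    simp only [Finset.mem_sdiff, Finset.mem_insert, not_or]
    constructor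
    · rintro ⟨h1 | h1, h2, h3⟩
      · exact absurd h1 h2
      · exact ⟨h1, h3⟩
    · rintro ⟨h1, h2⟩
      exact ⟨Or.inr h1, fun h => hpH (h ▸ h1), h2⟩
  rw [h1]
  apply mu_congr
  intro A hA
  have hAX : A ∪ X ⊆ H := Finset.union_subset (hA.trans Finset.sdiff_subset) hXH
  unfold con
  rw [Finset.union_insert, tr_p C hH hXH, if_pos hXr, tr_p C hH hAX, if_pos]
  have h2 := hr.submod (A ∪ X) (X ∪ L)
  have h3 : A ∪ X ∪ (X ∪ L) = A ∪ X ∪ L := by
    ext y; simp only [Finset.mem_union]; tauto
  have h4 : r X ≤ r ((A ∪ X) ∩ (X ∪ L)) := hr.mono _ _ (by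
    intro y hy
    simp only [Finset.mem_inter, Finset.mem_union]
    exact ⟨Or.inr hy, Or.inl hy⟩)
  rw [h3] at h2
  have h5 := out hr hHf hAX C.hp hpH
  have h6 : r (insert p (A ∪ X)) ≤ r (A ∪ X ∪ L) := by
    rw [← un_L C]
    exact hr.mono _ _ Finset.subset_union_left
  omega

theorem pt_fl (C : Ctx r E L p) (hH : H ∈ hy r E p) (hd : Disjoint H L) :
    {p} ∈ fl (tr r L) (insert p H) := by
  have hr := C.hr
  have hHf := (mem_hy.1 hH).1
  have hpH := (mem_hy.1 hH).2.2
  have hHE : H ⊆ E := (mem_fl.1 hHf).1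
  have hins : ({p} : Finset α) = insert p ∅ := rfl
  rw [mem_fl]
  refine ⟨by simp, ?_⟩
  intro e he hep
  have heH : e ∈ H := by
    rcases Finset.mem_insert.1 he with h | h
    · exact absurd (Finset.mem_singleton.2 h) hep
    · exact h
  have heL : e ∉ L := fun h => (Finset.disjoint_left.1 hd) heH h
  rw [hins, Finset.insert_comm, tr_p C hH (Finset.empty_subset _),
    tr_p C hH (Finset.insert_subset heH (Finset.empty_subset _))]
  have h1 : r (∅ ∪ L) = 2 := by rw [Finset.empty_union, C.hL2]
  have h2 : r (insert e ∅ ∪ L) = 3 := by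
    have h3 := out hr C.hL (subset_refl L) (hHE heH) heL
    have h4 : insert e ∅ ∪ L = insert e L := by
      ext y; simp
    rw [h4, h3, C.hL2]
  have h3 := rank_one hr e
  have h4 := C.lp e (hHE heH)
  have h5 : (insert e ∅ : Finset α) = {e} := rfl
  rw [h5] at h2 ⊢
  rw [hr.empty, h1, h2]
  rw [if_neg (by omega), if_neg (by omega)]
  omega

theorem rhs_eq (C : Ctx r E L p) (hH : H ∈ hy r E p) (f : Finset α → ℤ) :
    ∑ G ∈ hy (tr r L) (insert p H) p, mu (tr r L) G * f G
      = ∑ G ∈ (T1 r E L).filter (fun G => G ⊆ H), mu r G * f G := by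
  rw [hy_tr C hH]
  refine Finset.sum_congr rfl ?_
  intro G hG
  rw [Finset.mem_filter] at hG
  rw [mu_congr (r := tr r L) (r' := r) (E := G) (fun A hA => tr_H C hH (hA.trans hG.2))]

theorem lhs_eq (hTR : StTR) (hBco : StBco) (hBp : StBp) (C : Ctx r E L p) (hH : H ∈ hy r E p)
    (hd : Disjoint H L) (f : Finset α → ℤ) :
    ∑ F ∈ (fl (tr r L) (insert p H)).filter (fun F => p ∈ F),
      beta (tr r L) F * mc (tr r L) (insert p H) F * f (insert p H \ F)
    = mu (con (tr r L) {p}) H * f H
      + ∑ X ∈ (XX r E L).filter (fun X => X ⊆ H),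
          beta (tr r L) (insert p X) * mc r H X * f (H \ X) := by
  have hr := C.hr
  have hHf := (mem_hy.1 hH).1
  have hpH := (mem_hy.1 hH).2.2
  have hHE : H ⊆ E := (mem_fl.1 hHf).1
  have hrt : IsRk (tr r L) := hTR α r L hr (by rw [C.hL2]; norm_num)
  set t := tr r L with ht
  set g : Finset α → ℤ := fun F => beta t F * mc t (insert p H) F * f (insert p H \ F) with hg
  have hsub : insert {p} (((XX r E L).filter (fun X => X ⊆ H)).image (fun X => insert p X))
      ⊆ (fl t (insert p H)).filter (fun F => p ∈ F) := by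
    intro F hF
    rw [Finset.mem_insert, Finset.mem_image] at hF
    rw [Finset.mem_filter]
    rcases hF with rfl | ⟨X, hX, rfl⟩
    · exact ⟨pt_fl C hH hd, Finset.mem_singleton_self p⟩
    · rw [Finset.mem_filter] at hX
      exact ⟨fl_of_XX C hH hX.1 hX.2, Finset.mem_insert_self _ _⟩
  have hzero : ∀ F ∈ (fl t (insert p H)).filter (fun F => p ∈ F),
      F ∉ insert {p} (((XX r E L).filter (fun X => X ⊆ H)).image (fun X => insert p X)) →
      g F = 0 := by
    intro F hF hF'
    rw [Finset.mem_filter] at hF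
    rw [Finset.mem_insert, Finset.mem_image, not_or] at hF'
    obtain ⟨hFf, hpF⟩ := hF
    have hb : beta t F = 0 := by
      have hXH : F.erase p ⊆ H := by
        intro y hy
        rcases Finset.mem_insert.1 ((mem_fl.1 hFf).1 (Finset.mem_of_mem_erase hy)) with h | h
        · exact absurd h (Finset.ne_of_mem_erase hy)
        · exact h
      have hFX : insert p (F.erase p) = F := Finset.insert_erase hpF
      by_cases hc : t (F.erase p) < t F
      · exact hBco α t F p hrt hpF hF'.1 hc
      · exfalso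
        apply hF'.2
        refine ⟨F.erase p, ?_, hFX⟩
        rw [Finset.mem_filter]
        refine ⟨XX_of_fl C hH hd hXH ?_ (by rw [hFX]; exact hFf) (by rw [hFX]; exact hc), hXH⟩
        rw [Finset.nonempty_iff_ne_empty]
        intro h
        apply hF'.1
        rw [← hFX, h]
        rfl
    simp only [hg, hb, zero_mul]
  rw [← Finset.sum_subset hsub hzero, Finset.sum_insert]
  swap
  · rw [Finset.mem_image]
    rintro ⟨X, hX, h⟩
    rw [Finset.mem_filter] at hX
    have hX2 := hX.1
    unfold XX at hX2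
    rw [Finset.mem_filter] at hX2
    obtain ⟨x, hx⟩ := hX2.2.1
    have h1 : x ∈ ({p} : Finset α) := by rw [← h]; exact Finset.mem_insert_of_mem hx
    rw [Finset.mem_singleton] at h1
    rw [h1] at hx
    exact hpH (hX.2 hx)
  congr 1
  · simp only [hg]
    have h1 : 0 < t {p} := by
      have h2 : ({p} : Finset α) = insert p ∅ := rfl
      rw [h2, ht, tr_p C hH (Finset.empty_subset _), Finset.empty_union, C.hL2, hr.empty,
        if_neg (by norm_num)]
      norm_num
    rw [hBp α t p hrt h1, one_mul]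
    unfold mc
    have h3 : insert p H \ {p} = H := by
      rw [Finset.sdiff_singleton_eq_erase]
      exact Finset.erase_insert hpH
    rw [h3]
  · rw [Finset.sum_image]
    · refine Finset.sum_congr rfl ?_
      intro X hX
      rw [Finset.mem_filter] at hX
      simp only [hg]
      rw [ht, mc_X C hH hX.1 hX.2]
      have h1 : insert p H \ insert p X = H \ X := by
        ext y
        simp only [Finset.mem_sdiff, Finset.mem_insert, not_or]
        constructor
        · rintro ⟨h1 | h1, h2, h3⟩
          · exact absurd h1 h2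
          · exact ⟨h1, h3⟩
        · rintro ⟨h1, h2⟩
          exact ⟨Or.inr h1, fun h => hpH (h ▸ h1), h2⟩
      rw [h1]
    · intro X hX Y hY hXY
      rw [Finset.mem_coe, Finset.mem_filter] at hX hY
      have hpX : p ∉ X := fun h => hpH (hX.2 h)
      have hpY : p ∉ Y := fun h => hpH (hY.2 h)
      have := congrArg (fun Z => Finset.erase Z p) hXY
      simpa [Finset.erase_insert hpX, Finset.erase_insert hpY] using this

end

/-- job S5 -/
theorem t : StTR → StBco → StBp → StS5 := by
  intro hTR hBco hBp α _ r E L p f H C hIH hf hH hd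
  have hr := C.hr
  have hrt : IsRk (tr r L) := hTR α r L hr (by rw [C.hL2]; norm_num)
  have hlt : tr r L (insert p H) < r E := by
    have := tr_ins C hH
    omega
  have hlp : Lp (tr r L) (insert p H) := by
    intro x hx
    have h1 := C.lp x (insH C hH hx)
    have h2 := rank_one hr x
    have h3 : r L ≤ r ({x} ∪ L) := hr.mono _ _ Finset.subset_union_right
    rw [C.hL2] at h3
    unfold tr
    rw [if_neg (by omega)]
    omega
  have h := hIH _ hlt (tr r L) (insert p H) p f hrt rfl hlp (Finset.mem_insert_self _ _) hf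
  unfold GGs at h
  rw [rhs_eq C hH f, lhs_eq hTR hBco hBp C hH hd f] at h
  exact h

end Pool.Agent.K7.H97.GGS5
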