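import Pool.Agent.K7.H24.PD.Stm
import Pool.Agent.H305R2.MertensE

/-!
Job FINAL of the project PK24 (MP_a617e8_nt)
-/

set_option autoImplicit false

namespace Pool.Agent.K7.H97.PDFINAL

open Filter Topology Finset Pool.Agent.K7.H24.PD

theorem V_nonneg (s : ℕ) : 0 ≤ V s := by
  unfold V
  refine Finset.prod_nonneg fun p hp => ?_
  have h := (Finset.mem_filter.1 hp).2
  have h1 : (2 : ℝ) ≤ p := by exact_mod_cast h.two_le
  have h2 : 1 / (p : ℝ) ≤ 1 := by
    rw [div_le_one (by linarith)]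
    linarith
  linarith

theorem V_log : Tendsto (fun s : ℕ => Real.log s * V s) atTop
    (𝓝 (Real.exp (-Real.eulerMascheroniConstant))) := by
  have h := (Pool.Agent.H305R2.mertens_three).inv₀ (Real.exp_pos _).ne'
  rw [← Real.exp_neg] at h
  refine h.congr fun s => ?_
  rw [inv_div, Finset.prod_inv_distrib]
  unfold V
  rw [div_inv_eq_mul]
  congr 1
  refine Finset.prod_congr rfl fun p _ => ?_
  rw [one_div]

theorem pick (c : ℝ)
    (hc : c < (1 + Real.log 2) * Real.exp (-Real.eulerMascheroniConstant)) :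
    ∃ n : ℕ, c < (1 - 1 / ((n : ℝ) + 2)) * (1 + (1 - 1 / ((n : ℝ) + 2)) *
      (Real.log 2 - 1 / ((n : ℝ) + 2))) * Real.exp (-Real.eulerMascheroniConstant) := by
  have h0 : Tendsto (fun n : ℕ => 1 / ((n : ℝ) + 2)) atTop (𝓝 0) := by
    have h := tendsto_const_div_atTop_nhds_zero_nat (1 : ℝ)
    have h2 := (tendsto_add_atTop_iff_nat 2).2 h
    refine h2.congr fun n => ?_
    push_cast
    rfl
  have h1 : Tendsto (fun n : ℕ => (1 - 1 / ((n : ℝ) + 2)) * (1 + (1 - 1 / ((n : ℝ) + 2)) *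
      (Real.log 2 - 1 / ((n : ℝ) + 2))) * Real.exp (-Real.eulerMascheroniConstant)) atTop
      (𝓝 ((1 - 0) * (1 + (1 - 0) * (Real.log 2 - 0)) *
        Real.exp (-Real.eulerMascheroniConstant))) := by
    have ha := (tendsto_const_nhds (x := (1 : ℝ))).sub h0
    have hb := (tendsto_const_nhds (x := Real.log 2)).sub h0
    exact ((ha.mul ((tendsto_const_nhds (x := (1 : ℝ))).add (ha.mul hb))).mul
      (tendsto_const_nhds (x := Real.exp (-Real.eulerMascheroniConstant))))
  have h2 : c < (1 - 0) * (1 + (1 - 0) * (Real.log 2 - 0)) *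
        Real.exp (-Real.eulerMascheroniConstant) := by
    simpa using hc
  exact (h1.eventually (lt_mem_nhds h2)).exists

/-- job FINAL -/
theorem t (hLim : StLim) (hAsy : StAsy) : StFinal := by
  intro c hc
  obtain ⟨n, hn⟩ := pick c hc
  set K : ℕ := n + 2 with hK
  set K' : ℕ := (n + 2) ^ (n + 2) with hK'
  have hKr : ((K : ℕ) : ℝ) = (n : ℝ) + 2 := by rw [hK]; push_cast; rfl
  have hn0 : (0 : ℝ) < (n : ℝ) + 2 := by positivity
  have hlogK : 0 < Real.log (K : ℝ) := Real.log_pos (by rw [hKr]; linarith [Nat.cast_nonneg (α := ℝ) n])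
  have hb : Real.log (K : ℝ) / Real.log (K' : ℝ) = 1 / ((n : ℝ) + 2) := by
    have h1 : Real.log (K' : ℝ) = ((n : ℝ) + 2) * Real.log (K : ℝ) := by
      rw [hK', hK]
      push_cast
      rw [← Nat.cast_two, ← Nat.cast_add, Real.log_pow]
    rw [h1, div_mul_cancel_right₀ hlogK.ne', one_div]
  have hKK : K < K' := by
    rw [hK, hK']
    calc n + 2 = (n + 2) ^ 1 := (pow_one _).symm
      _ < (n + 2) ^ (n + 2) := Nat.pow_lt_pow_right (by omega) (by omega)
  set a : ℝ := 1 / ((n : ℝ) + 2) with ha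
  have ha0 : 0 < a := by positivity
  have ha1 : a ≤ 1 := by
    rw [ha, div_le_one hn0]
    linarith [Nat.cast_nonneg (α := ℝ) n]
  set A : ℝ := (1 - a) * (1 + (1 - a) * (Real.log 2 - a)) with hA
  have hV := (V_log.const_mul A).eventually (lt_mem_nhds hn)
  filter_upwards [hV, hAsy K' a ha0, eventually_ge_atTop 2] with s h1 h2 h3
  have h4 := hLim s K K' h3 (by omega) hKK
  have hs0 : (0 : ℝ) < s := by exact_mod_cast (by omega : 0 < s)
  have hlogs : 0 ≤ Real.log s := Real.log_nonneg (by exact_mod_cast (by omega : 1 ≤ s))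
  have hVs := V_nonneg s
  rw [hb, hKr, ← ha] at h4
  set S : ℝ := ∑ p ∈ (Icc K' s).filter Nat.Prime,
    Real.log p / (p * (Real.log s + Real.log p)) with hS
  have h5 : 1 / (s : ℝ) * (1 - a) * V s * (1 + (1 - a) * S) ≤ 1 - lam s := by linarith
  have h6 : 1 / (s : ℝ) * (1 - a) * V s * (1 + (1 - a) * (Real.log 2 - a)) ≤ 1 - lam s := by
    refine le_trans ?_ h5
    have h7 : 0 ≤ 1 / (s : ℝ) * (1 - a) * V s := by
      have : 0 ≤ 1 - a := by linarith
      positivity
    have h8 : (1 - a) * (Real.log 2 - a) ≤ (1 - a) * S :=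
      mul_le_mul_of_nonneg_left h2 (by linarith)
    exact mul_le_mul_of_nonneg_left (by linarith) h7
  have h9 : (s : ℝ) * Real.log s * (1 / (s : ℝ) * (1 - a) * V s *
      (1 + (1 - a) * (Real.log 2 - a))) = A * (Real.log s * V s) := by
    rw [hA]
    field_simp
  have h10 : (s : ℝ) * Real.log s * (1 / (s : ℝ) * (1 - a) * V s *
      (1 + (1 - a) * (Real.log 2 - a))) ≤ s * Real.log s * (1 - lam s) :=
    mul_le_mul_of_nonneg_left h6 (by positivity)
  rw [h9] at h10
  linarith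

end Pool.Agent.K7.H97.PDFINAL
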