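import Pool.Agent.K7.H81.RT.Stm

/-!
# Job UPP of the project RT (MP_b68e99_co): powers in the coding of a rotation
-/

set_option autoImplicit false

namespace Pool.Agent.K7.H97.RTUPP

open Pool.Agent.K7.H81.RT

/-- the real inequality -/
theorem key (hD : StDens) (e : ℕ) (α c : ℝ) (A : Type) (u : ℕ → A) (s : A → ℤ) (he : 2 ≤ e)
    (hc : 0 < c) (hB : Bad c α) (hB' : Bad c (e * α))
    (hs : ∀ n : ℕ, (s (u n) : ℝ) / e ≤ Int.fract (n * α) ∧
      Int.fract (n * α) < ((s (u n) : ℝ) + 1) / e)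
    (q l : ℕ) (hq : 1 ≤ q) (hP : HasPower u q l) :
    (l : ℝ) / q ≤ 1 + (1 / c + 2) / (c * e) := by
  have hq0 : (0 : ℝ) < q := by exact_mod_cast hq
  have he0 : (0 : ℝ) < e := by exact_mod_cast (by omega : 0 < e)
  have he2 : (2 : ℝ) ≤ e := by exact_mod_cast he
  have hpos : 0 < (1 / c + 2) / (c * e) := by positivity
  rcases Nat.lt_or_ge q l with hl | hl
  swap
  · have : (l : ℝ) / q ≤ 1 := by
      rw [div_le_one hq0]
      exact_mod_cast hl
    linarith
  obtain ⟨i, v, hv⟩ := hP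
  obtain ⟨L, rfl⟩ := Nat.exists_eq_add_of_lt hl
  -- `l = q + L + 1`
  have hu : ∀ k < L + 1, u (i + k) = u (i + k + q) := by
    intro k hk
    have h1 := hv k (by omega)
    have h2 := hv (k + q) (by omega)
    rw [Nat.add_mod_right] at h2
    rw [h1, add_assoc, h2]
  -- scaled form
  have hs' : ∀ n : ℕ, (s (u n) : ℝ) ≤ e * Int.fract (n * α) ∧
      e * Int.fract (n * α) < (s (u n) : ℝ) + 1 := by
    intro n
    obtain ⟨h1, h2⟩ := hs n
    rw [div_le_iff₀ he0] at h1
    rw [lt_div_iff₀ he0] at h2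
    constructor <;> linarith
  set δ : ℝ := Int.fract (((i + 0 + q : ℕ) : ℝ) * α) - Int.fract (((i + 0 : ℕ) : ℝ) * α) with hδ
  have hdiff : ∀ k < L + 1,
      Int.fract (((i + k + q : ℕ) : ℝ) * α) = Int.fract (((i + k : ℕ) : ℝ) * α) + δ := by
    intro k hk
    have hb : ∀ k < L + 1, |e * (Int.fract (((i + k + q : ℕ) : ℝ) * α) -
        Int.fract (((i + k : ℕ) : ℝ) * α))| < 1 := by
      intro k hk
      obtain ⟨h1, h2⟩ := hs' (i + k)
      obtain ⟨h3, h4⟩ := hs' (i + k + q)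
      rw [← hu k hk] at h3 h4
      rw [abs_lt]
      constructor <;> nlinarith
    have hb' : ∀ k < L + 1, |(Int.fract (((i + k + q : ℕ) : ℝ) * α) -
        Int.fract (((i + k : ℕ) : ℝ) * α))| < 1 / 2 := by
      intro k hk
      have h := hb k hk
      rw [abs_mul, abs_of_pos he0] at h
      have h0 := abs_nonneg (Int.fract (((i + k + q : ℕ) : ℝ) * α) -
        Int.fract (((i + k : ℕ) : ℝ) * α))
      nlinarith
    have h1 := hb' k hk
    have h2 := hb' 0 (by omega)
    rw [← hδ] at h2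
    -- the difference is an integer
    have h3 : Int.fract (((i + k + q : ℕ) : ℝ) * α) - Int.fract (((i + k : ℕ) : ℝ) * α) - δ =
        ((⌊((i + k : ℕ) : ℝ) * α⌋ - ⌊((i + k + q : ℕ) : ℝ) * α⌋ +
          ⌊((i + 0 + q : ℕ) : ℝ) * α⌋ - ⌊((i + 0 : ℕ) : ℝ) * α⌋ : ℤ) : ℝ) := by
      rw [hδ]
      unfold Int.fract
      push_cast
      ring
    set N : ℤ := ⌊((i + k : ℕ) : ℝ) * α⌋ - ⌊((i + k + q : ℕ) : ℝ) * α⌋ +
          ⌊((i + 0 + q : ℕ) : ℝ) * α⌋ - ⌊((i + 0 : ℕ) : ℝ) * α⌋ with hN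
    have h4 : |(N : ℝ)| < 1 := by
      rw [← h3]
      rw [abs_lt] at h1 h2 ⊢
      constructor <;> linarith
    have h5 : N = 0 := by
      rw [← Int.cast_abs] at h4
      have : |N| < 1 := by exact_mod_cast h4
      exact Int.abs_lt_one_iff.mp this
    rw [h5] at h3
    push_cast at h3
    push_cast
    linarith
  -- lower bound for `|δ|`
  have hδc : c / q ≤ |δ| := by
    have h := hB q hq (⌊((i + 0 + q : ℕ) : ℝ) * α⌋ - ⌊((i + 0 : ℕ) : ℝ) * α⌋)
    have h2 : (q : ℝ) * α - ((⌊((i + 0 + q : ℕ) : ℝ) * α⌋ - ⌊((i + 0 : ℕ) : ℝ) * α⌋ : ℤ) : ℝ)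
        = δ := by
      rw [hδ]
      unfold Int.fract
      push_cast
      ring
    rw [h2] at h
    exact h
  have hδ0 : 0 < |δ| := lt_of_lt_of_le (by positivity) hδc
  have hη : 0 < e * |δ| := by positivity
  -- avoidance
  have hmain : ((L + 1 : ℕ) + 1 : ℝ) * (e * |δ|) < 1 / c + 2 := by
    rcases lt_or_ge 0 δ with hp | hp
    · rw [abs_of_pos hp] at hη ⊢
      refine hD c (e * α) (i * (e * α)) (-(e * δ)) (e * δ) (L + 1) hc hB' hη (by omega) ?_
      rintro k hk p ⟨h1, h2⟩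
      obtain ⟨h3, h4⟩ := hs' (i + k)
      obtain ⟨h5, h6⟩ := hs' (i + k + q)
      rw [← hu k hk, hdiff k hk] at h5 h6
      have h7 : (e : ℝ) * Int.fract (((i + k : ℕ) : ℝ) * α) =
          i * (e * α) + k * (e * α) - e * ⌊((i + k : ℕ) : ℝ) * α⌋ := by
        unfold Int.fract
        push_cast
        ring
      set F : ℤ := ⌊((i + k : ℕ) : ℝ) * α⌋ with hF
      set m : ℤ := s (u (i + k)) with hm
      have h8 : (m : ℝ) < ((p - e * F : ℤ) : ℝ) := by
        push_cast
        linarith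
      have h9 : ((p - e * F : ℤ) : ℝ) < ((m + 1 : ℤ) : ℝ) := by
        push_cast
        rw [mul_add] at h6
        linarith
      have h10 : m < p - e * F := by exact_mod_cast h8
      have h11 : p - e * F < m + 1 := by exact_mod_cast h9
      omega
    · have hn : δ < 0 := by
        rcases hp.lt_or_eq with h | h
        · exact h
        · rw [h] at hδ0
          simp at hδ0
      rw [abs_of_neg hn] at hη ⊢
      refine hD c (e * α) (i * (e * α)) 0 (e * -δ) (L + 1) hc hB' hη (by omega) ?_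
      rintro k hk p ⟨h1, h2⟩
      obtain ⟨h3, h4⟩ := hs' (i + k)
      obtain ⟨h5, h6⟩ := hs' (i + k + q)
      rw [← hu k hk, hdiff k hk] at h5 h6
      have h7 : (e : ℝ) * Int.fract (((i + k : ℕ) : ℝ) * α) =
          i * (e * α) + k * (e * α) - e * ⌊((i + k : ℕ) : ℝ) * α⌋ := by
        unfold Int.fract
        push_cast
        ring
      set F : ℤ := ⌊((i + k : ℕ) : ℝ) * α⌋ with hF
      set m : ℤ := s (u (i + k)) with hm
      have h8 : (m : ℝ) < ((p - e * F : ℤ) : ℝ) := by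
        push_cast
        rw [mul_add] at h5
        linarith
      have h9 : ((p - e * F : ℤ) : ℝ) < ((m + 1 : ℤ) : ℝ) := by
        push_cast
        linarith
      have h10 : m < p - e * F := by exact_mod_cast h8
      have h11 : p - e * F < m + 1 := by exact_mod_cast h9
      omega
  -- conclusion
  have h1 : (L + 1 : ℝ) * (e * (c / q)) < 1 / c + 2 := by
    have h2 : (L + 1 : ℝ) * (e * (c / q)) ≤ (L + 1 : ℝ) * (e * |δ|) := by
      gcongr
    push_cast at hmain
    nlinarith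
  have h3 : ((q + L + 1 : ℕ) : ℝ) / q = 1 + (L + 1 : ℝ) / q := by
    push_cast
    field_simp
    ring
  rw [h3]
  have h4 : (L + 1 : ℝ) / q ≤ (1 / c + 2) / (c * e) := by
    rw [le_div_iff₀ (by positivity)]
    have h5 : (L + 1 : ℝ) / q * (c * e) = (L + 1 : ℝ) * (e * (c / q)) := by
      field_simp
    rw [h5]
    exact h1.le
  linarith

/-- job UPP -/
theorem t : StUpp := by
  intro hD e α c A u s he hc _ hB hB' hs
  unfold critExp expFrom
  refine iSup_le fun q => iSup_le fun l => iSup_le fun h => ?_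
  obtain ⟨hq, _, hP⟩ := h
  have h1 := key hD e α c A u s he hc hB hB' hs q l hq hP
  have hq0 : (0 : ℝ) < q := by exact_mod_cast hq
  have h2 : (l : ENNReal) / q = ENNReal.ofReal ((l : ℝ) / q) := by
    rw [ENNReal.ofReal_div_of_pos hq0, ENNReal.ofReal_natCast, ENNReal.ofReal_natCast]
  rw [h2]
  exact ENNReal.ofReal_le_ofReal h1

end Pool.Agent.K7.H97.RTUPP
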